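import Mathlib

/-!
# Ratio order of power series with nonnegative coefficients

`LR f g`: the quotient `g_i / f_i` of the coefficients is nondecreasing. The statements are closed
under products (Cauchy-Binet) and contain the monotonicity theorem of Efron.
-/

set_option autoImplicit false

namespace Pool.Agent.Helper54.Arb

open PowerSeries Finset

/-- nonnegative coefficients -/
def Nn (f : ℝ⟦X⟧) : Prop := ∀ i, 0 ≤ coeff i f

/-- the ratio order: `f_j g_i ≤ f_i g_j` for `i ≤ j` -/
def LR (f g : ℝ⟦X⟧) : Prop := ∀ i j, i ≤ j → coeff j f * coeff i g ≤ coeff i f * coeff j g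

/-- log-concave, without internal zeros -/
def PF (f : ℝ⟦X⟧) : Prop :=
  ∀ i j k, i ≤ j → coeff i f * coeff (j + k) f ≤ coeff (i + k) f * coeff j f

theorem Nn.zero : Nn (0 : ℝ⟦X⟧) := fun i => by simp

theorem Nn.one : Nn (1 : ℝ⟦X⟧) := fun i => by
  rw [coeff_one]; split_ifs <;> norm_num

theorem Nn.X : Nn (X : ℝ⟦X⟧) := fun i => by
  rw [coeff_X]; split_ifs <;> norm_num

theorem Nn.add {f g : ℝ⟦X⟧} (hf : Nn f) (hg : Nn g) : Nn (f + g) := fun i => by
  rw [map_add]; exact add_nonneg (hf i) (hg i)

theorem Nn.mul {f g : ℝ⟦X⟧} (hf : Nn f) (hg : Nn g) : Nn (f * g) := fun i => by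
  rw [coeff_mul]; exact sum_nonneg fun p _ => mul_nonneg (hf _) (hg _)

theorem Nn.C_mul {f : ℝ⟦X⟧} (hf : Nn f) {c : ℝ} (hc : 0 ≤ c) : Nn (C c * f) := fun i => by
  rw [coeff_C_mul]; exact mul_nonneg hc (hf i)

theorem LR.refl (f : ℝ⟦X⟧) : LR f f := fun i j _ => by rw [mul_comm]

theorem LR.add_right {f g h : ℝ⟦X⟧} (h1 : LR f g) (h2 : LR f h) : LR f (g + h) :=
  fun i j hij => by
    rw [map_add, map_add]
    have := h1 i j hij
    have := h2 i j hij
    nlinarith

theorem LR.add_left {f g h : ℝ⟦X⟧} (h1 : LR f h) (h2 : LR g h) : LR (f + g) h :=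
  fun i j hij => by
    rw [map_add, map_add]
    have := h1 i j hij
    have := h2 i j hij
    nlinarith

theorem LR.C_mul_right {f g : ℝ⟦X⟧} (h1 : LR f g) {c : ℝ} (hc : 0 ≤ c) : LR f (C c * g) :=
  fun i j hij => by
    rw [coeff_C_mul, coeff_C_mul]
    have := mul_le_mul_of_nonneg_left (h1 i j hij) hc
    nlinarith

theorem LR.C_mul_left {f g : ℝ⟦X⟧} (h1 : LR f g) {c : ℝ} (hc : 0 ≤ c) : LR (C c * f) g :=
  fun i j hij => by
    rw [coeff_C_mul, coeff_C_mul]
    have := mul_le_mul_of_nonneg_left (h1 i j hij) hc
    nlinarith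

theorem LR.zero_right (f : ℝ⟦X⟧) : LR f 0 := fun i j _ => by simp

theorem LR.zero_left (f : ℝ⟦X⟧) : LR 0 f := fun i j _ => by simp

/-- `f ◁ h` follows from `f + h ◁ h` -/
theorem LR.of_add_left {f h : ℝ⟦X⟧} (h1 : LR (f + h) h) : LR f h := fun i j hij => by
  have := h1 i j hij
  rw [map_add, map_add] at this
  nlinarith

/-- `f ◁ h` follows from `f ◁ f + h` -/
theorem LR.of_add_right {f h : ℝ⟦X⟧} (h1 : LR f (f + h)) : LR f h := fun i j hij => by
  have := h1 i j hij
  rw [map_add, map_add] at this
  nlinarith

theorem LR.shift {f g : ℝ⟦X⟧} (h1 : LR f g) : LR (X * f) (X * g) := fun i j hij => by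
  rcases i with _ | i
  · simp
  · rcases j with _ | j
    · omega
    · simp only [coeff_succ_X_mul]
      exact h1 i j (by omega)

theorem LR.of_shift {f g : ℝ⟦X⟧} (h1 : LR (X * f) (X * g)) : LR f g := fun i j hij => by
  have := h1 (i + 1) (j + 1) (by omega)
  simpa only [coeff_succ_X_mul] using this

theorem ne_zero_iff {g : ℝ⟦X⟧} : g ≠ 0 ↔ ∃ k, coeff k g ≠ 0 := by
  constructor
  · intro h
    by_contra hc
    push Not at hc
    exact h (PowerSeries.ext fun n => by rw [hc n]; simp)
  · rintro ⟨k, hk⟩ h
    exact hk (by rw [h]; simp)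

/-- transitivity -/
theorem LR.trans {f g h : ℝ⟦X⟧} (h1 : LR f g) (h2 : LR g h) (hf : Nn f) (hg : Nn g) (hh : Nn h)
    (hg0 : g ≠ 0) : LR f h := by
  intro i j hij
  obtain ⟨k, hk⟩ := ne_zero_iff.1 hg0
  have fi := hf i
  have fj := hf j
  have gi := hg i
  have gj := hg j
  have hi := hh i
  have hj := hh j
  by_contra hlt
  rw [not_le] at hlt
  have hpos : 0 < coeff j f * coeff i h := lt_of_le_of_lt (mul_nonneg fi hj) hlt
  have fj' : 0 < coeff j f := by
    rcases fj.lt_or_eq with h | h
    · exact h
    · rw [← h, zero_mul] at hpos; exact absurd hpos (lt_irrefl _)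
  have hi' : 0 < coeff i h := by
    rcases hi.lt_or_eq with h | h
    · exact h
    · rw [← h, mul_zero] at hpos; exact absurd hpos (lt_irrefl _)
  have e1 := h1 i j hij
  have e2 := h2 i j hij
  rcases gi.lt_or_eq with gi' | gi'
  · rcases gj.lt_or_eq with gj' | gj'
    · have e3 : coeff j f * coeff i g * (coeff j g * coeff i h) ≤
          coeff i f * coeff j g * (coeff i g * coeff j h) :=
        mul_le_mul e1 e2 (mul_nonneg gj hi) (mul_nonneg fi gj)
      have e4 : coeff i g * coeff j g * (coeff j f * coeff i h) ≤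
          coeff i g * coeff j g * (coeff i f * coeff j h) := by nlinarith
      have e5 := le_of_mul_le_mul_left e4 (mul_pos gi' gj')
      linarith
    · rw [← gj', mul_zero] at e1
      have : 0 < coeff j f * coeff i g := mul_pos fj' gi'
      linarith
  · -- `g_i = 0`: then `g_k = 0` for all `k ≥ i` and for all `k < j`
    have up : ∀ k, i ≤ k → coeff k g = 0 := fun k hik => by
      have e := h2 i k hik
      rw [← gi', zero_mul] at e
      rcases (hg k).lt_or_eq with h' | h'
      · have : 0 < coeff k g * coeff i h := mul_pos h' hi'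
        linarith
      · exact h'.symm
    have lo : ∀ k, k ≤ j → coeff k g = 0 := fun k hkj => by
      have e := h1 k j hkj
      rw [up j hij, mul_zero] at e
      rcases (hg k).lt_or_eq with h' | h'
      · have : 0 < coeff j f * coeff k g := mul_pos fj' h'
        linarith
      · exact h'.symm
    rcases le_total i k with h' | h'
    · exact hk (up k h')
    · exact hk (lo k (h'.trans hij))

/-- `PF` in terms of the ratio order -/
theorem PF.of_LR {f : ℝ⟦X⟧} (h : LR f (X * f)) : PF f := by
  -- one step
  have h1 : ∀ i j, i ≤ j → coeff i f * coeff (j + 1) f ≤ coeff (i + 1) f * coeff j f := by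
    intro i j hij
    have := h (i + 1) (j + 1) (by omega)
    simp only [coeff_succ_X_mul] at this
    nlinarith
  -- m steps, as long as the indices do not cross
  have h2 : ∀ m i j, i + m ≤ j + 1 → coeff i f * coeff (j + m) f ≤ coeff (i + m) f * coeff j f := by
    intro m
    induction m with
    | zero => intro i j _; simp
    | succ m ih =>
      intro i j hij
      have e1 := ih i (j + 1) (by omega)
      have e2 := h1 (i + m) j (by omega)
      have e3 : j + (m + 1) = j + 1 + m := by ring
      have e4 : i + (m + 1) = i + m + 1 := by ring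
      rw [e3, e4]
      exact e1.trans e2
  intro i j k hij
  rcases le_total (i + k) (j + 1) with h3 | h3
  · exact h2 k i j h3
  · -- cross over: the inner pair is `{j, i + k}`, reached after `j - i` steps
    obtain ⟨d, rfl⟩ := Nat.exists_eq_add_of_le hij
    have e := h2 d i (i + k) (by omega)
    have e1 : i + d + k = i + k + d := by ring
    rw [e1]
    linarith [mul_comm (coeff (i + d) f) (coeff (i + k) f)]

theorem PF.LR {f : ℝ⟦X⟧} (h : PF f) (hf : Nn f) : LR f (X * f) := by
  intro i j hij
  rcases i with _ | i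
  · simp only [coeff_zero_X_mul, mul_zero]
    exact mul_nonneg (hf _) ((Nn.X.mul hf) _)
  · rcases j with _ | j
    · omega
    · simp only [coeff_succ_X_mul]
      have := h i j 1 (by omega)
      nlinarith

/-- **Cauchy-Binet**: the product with a log-concave series preserves the ratio order. -/
theorem LR.mul_right {f g h : ℝ⟦X⟧} (h1 : LR f g) (hh : PF h) (h0 : Nn h) :
    LR (f * h) (g * h) := by
  intro i j hij
  -- the Toeplitz matrix of `h`
  set H : ℕ → ℕ → ℝ := fun n a => if a ≤ n then coeff (n - a) h else 0 with hH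
  have Hnn : ∀ n a, 0 ≤ H n a := fun n a => by
    simp only [hH]; split_ifs
    · exact h0 _
    · exact le_refl _
  have conv : ∀ (p : ℝ⟦X⟧) (n : ℕ), n ≤ j →
      coeff n (p * h) = ∑ a ∈ range (j + 1), coeff a p * H n a := by
    intro p n hn
    rw [coeff_mul, Finset.Nat.sum_antidiagonal_eq_sum_range_succ_mk]
    rw [← Finset.sum_subset (s₁ := range (n + 1)) (s₂ := range (j + 1))]
    · refine Finset.sum_congr rfl fun a ha => ?_
      rw [Finset.mem_range] at ha
      simp only [hH]
      rw [if_pos (by omega)]
    · intro a ha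
      rw [Finset.mem_range] at ha ⊢
      omega
    · intro a _ ha
      rw [Finset.mem_range] at ha
      simp only [hH]
      rw [if_neg (by omega), mul_zero]
  have minor : ∀ a b, a ≤ b → H j a * H i b ≤ H i a * H j b := by
    intro a b hab
    simp only [hH]
    by_cases hbi : b ≤ i
    · rw [if_pos (by omega), if_pos hbi, if_pos (by omega), if_pos (by omega)]
      have := hh (i - b) (i - a) (j - i) (by omega)
      rw [show i - a + (j - i) = j - a by omega, show i - b + (j - i) = j - b by omega] at this
      linarith [mul_comm (coeff (j - a) h) (coeff (i - b) h),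
        mul_comm (coeff (j - b) h) (coeff (i - a) h)]
    · rw [if_neg hbi, mul_zero]
      exact mul_nonneg (Hnn i a) (Hnn j b)
  rw [conv f j le_rfl, conv g i hij, conv f i hij, conv g j le_rfl]
  rw [Finset.sum_mul_sum, Finset.sum_mul_sum]
  have key : 0 ≤ ∑ a ∈ range (j + 1), ∑ b ∈ range (j + 1),
      (coeff a f * coeff b g - coeff b f * coeff a g) * (H i a * H j b - H j a * H i b) := by
    refine Finset.sum_nonneg fun a _ => Finset.sum_nonneg fun b _ => ?_
    rcases le_total a b with hab | hab
    · have e1 := h1 a b hab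
      have e2 := minor a b hab
      exact mul_nonneg (by linarith) (by linarith)
    · have e1 := h1 b a hab
      have e2 := minor b a hab
      exact mul_nonneg_of_nonpos_of_nonpos (by linarith)
        (by linarith [mul_comm (H i b) (H j a), mul_comm (H j b) (H i a)])
  have swap : ∀ F : ℕ → ℕ → ℝ, ∑ a ∈ range (j + 1), ∑ b ∈ range (j + 1), F a b =
      ∑ a ∈ range (j + 1), ∑ b ∈ range (j + 1), F b a := fun F => Finset.sum_comm
  have e1 : ∑ a ∈ range (j + 1), ∑ b ∈ range (j + 1),
      (coeff a f * coeff b g - coeff b f * coeff a g) * (H i a * H j b - H j a * H i b) =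
      2 * (∑ a ∈ range (j + 1), ∑ b ∈ range (j + 1), coeff a f * H i a * (coeff b g * H j b)) -
      2 * (∑ a ∈ range (j + 1), ∑ b ∈ range (j + 1),
        coeff a f * H j a * (coeff b g * H i b)) := by
    have e2 : ∀ a b : ℕ,
        (coeff a f * coeff b g - coeff b f * coeff a g) * (H i a * H j b - H j a * H i b) =
        (coeff a f * H i a * (coeff b g * H j b) - coeff a f * H j a * (coeff b g * H i b)) +
        (coeff b f * H i b * (coeff a g * H j a) - coeff b f * H j b * (coeff a g * H i a)) := by
      intro a b; ring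
    simp only [e2, Finset.sum_add_distrib, Finset.sum_sub_distrib]
    rw [← swap (fun a b => coeff a f * H i a * (coeff b g * H j b)),
      ← swap (fun a b => coeff a f * H j a * (coeff b g * H i b))]
    ring
  rw [e1] at key
  linarith

theorem LR.mul_left {f g h : ℝ⟦X⟧} (h1 : LR f g) (hh : PF h) (h0 : Nn h) :
    LR (h * f) (h * g) := by
  rw [mul_comm h f, mul_comm h g]; exact h1.mul_right hh h0

/-- the truncation `f_i`, `i ≥ t` -/
noncomputable def trunc (t : ℕ) (f : ℝ⟦X⟧) : ℝ⟦X⟧ := PowerSeries.mk fun n =>
  if t ≤ n then coeff n f else 0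

theorem coeff_trunc (t n : ℕ) (f : ℝ⟦X⟧) :
    coeff n (trunc t f) = if t ≤ n then coeff n f else 0 := by
  rw [trunc, coeff_mk]

theorem Nn.trunc {f : ℝ⟦X⟧} (hf : Nn f) (t : ℕ) : Nn (trunc t f) := fun n => by
  rw [coeff_trunc]; split_ifs
  · exact hf n
  · exact le_refl _

theorem LR.trunc {f : ℝ⟦X⟧} (hf : Nn f) (t : ℕ) : LR f (trunc t f) := fun i j hij => by
  rw [coeff_trunc, coeff_trunc]
  by_cases h : t ≤ i
  · rw [if_pos h, if_pos (h.trans hij), mul_comm]
  · rw [if_neg h, mul_zero]
    exact mul_nonneg (hf i) (by split_ifs; exacts [hf j, le_refl _])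

theorem PF.trunc {f : ℝ⟦X⟧} (h : PF f) (hf : Nn f) (t : ℕ) : PF (trunc t f) :=
  fun i j k hij => by
    rw [coeff_trunc, coeff_trunc, coeff_trunc, coeff_trunc]
    by_cases h1 : t ≤ i
    · rw [if_pos h1, if_pos (by omega), if_pos (by omega), if_pos (by omega)]
      exact h i j k hij
    · rw [if_neg h1, zero_mul]
      exact mul_nonneg (by split_ifs; exacts [hf _, le_refl _])
        (by split_ifs; exacts [hf _, le_refl _])

/-- **Efron's monotonicity theorem**, in the form used here. -/
theorem efron {k k' a a' : ℝ⟦X⟧} (hk : PF k) (hk' : PF k') (nk : Nn k) (nk' : Nn k')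
    (na : Nn a) (na' : Nn a') (h : LR k a) (h' : LR k' a')
    (hz : ∀ n, coeff n k = 0 → coeff n a = 0) (hz' : ∀ n, coeff n k' = 0 → coeff n a' = 0) :
    LR (k * k') (a * a') := by
  -- the monotone quotient
  classical
  obtain ⟨x, hx0, hxm, hx⟩ : ∃ x : ℕ → ℝ, (∀ n, 0 ≤ x n) ∧ (∀ n, x n ≤ x (n + 1)) ∧
      ∀ n, coeff n a' = x n * coeff n k' := by
    refine ⟨fun n => (range (n + 1)).sup' (nonempty_range_add_one) fun m => coeff m a' / coeff m k',
      ?_, ?_, ?_⟩
    · intro n
      refine le_trans (div_nonneg (na' 0) (nk' 0)) ?_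
      exact Finset.le_sup' (fun m => coeff m a' / coeff m k') (by simp : (0 : ℕ) ∈ range (n + 1))
    · intro n
      refine Finset.sup'_mono _ (fun m hm => ?_) _
      rw [Finset.mem_range] at hm ⊢
      omega
    · intro n
      by_cases hn : coeff n k' = 0
      · rw [hn, mul_zero, hz' n hn]
      · have hpos : 0 < coeff n k' := lt_of_le_of_ne (nk' n) (Ne.symm hn)
        have : (range (n + 1)).sup' (nonempty_range_add_one) (fun m => coeff m a' / coeff m k') =
            coeff n a' / coeff n k' := by
          apply le_antisymm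
          · refine Finset.sup'_le _ _ fun m hm => ?_
            rw [Finset.mem_range] at hm
            by_cases hm0 : coeff m k' = 0
            · rw [hm0, div_zero]; exact div_nonneg (na' n) (nk' n)
            · have hmp : 0 < coeff m k' := lt_of_le_of_ne (nk' m) (Ne.symm hm0)
              rw [div_le_div_iff₀ hmp hpos]
              have := h' m n (by omega)
              linarith [mul_comm (coeff n k') (coeff m a'), mul_comm (coeff m k') (coeff n a')]
          · exact Finset.le_sup' (fun m => coeff m a' / coeff m k')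
              (by simp : n ∈ range (n + 1))
        simp only
        rw [this]; field_simp
  intro i j hij
  -- increments
  set c : ℕ → ℝ := fun t => if t = 0 then x 0 else x t - x (t - 1) with hc
  have c0 : ∀ t, 0 ≤ c t := fun t => by
    simp only [hc]
    split_ifs with ht
    · exact hx0 0
    · have := hxm (t - 1)
      rw [show t - 1 + 1 = t by omega] at this
      linarith
  have csum : ∀ n, ∑ t ∈ range (n + 1), c t = x n := by
    intro n
    induction n with
    | zero => simp [hc]
    | succ n ih =>
      rw [Finset.sum_range_succ, ih]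
      simp only [hc]
      rw [if_neg (by omega)]
      simp
  -- `a'` as a combination of truncations, up to order `j`
  have dec : ∀ n, n ≤ j → coeff n a' = ∑ t ∈ range (j + 1), c t * coeff n (trunc t k') := by
    intro n hn
    have e1 : ∑ t ∈ range (j + 1), c t * coeff n (trunc t k') =
        ∑ t ∈ range (n + 1), c t * coeff n k' := by
      rw [← Finset.sum_subset (s₁ := range (n + 1)) (s₂ := range (j + 1))]
      · refine Finset.sum_congr rfl fun t ht => ?_
        rw [Finset.mem_range] at ht
        rw [coeff_trunc, if_pos (by omega)]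
      · intro t ht
        rw [Finset.mem_range] at ht ⊢
        omega
      · intro t _ ht
        rw [Finset.mem_range] at ht
        rw [coeff_trunc, if_neg (by omega), mul_zero]
    rw [e1, ← Finset.sum_mul, csum, hx n]
  have decm : ∀ n, n ≤ j → coeff n (a * a') =
      ∑ t ∈ range (j + 1), c t * coeff n (a * trunc t k') := by
    intro n hn
    rw [coeff_mul]
    simp only [coeff_mul, Finset.mul_sum]
    rw [Finset.sum_comm]
    refine Finset.sum_congr rfl fun p hp => ?_
    have hp' := Finset.HasAntidiagonal.mem_antidiagonal.1 hp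
    rw [dec p.2 (by omega), Finset.mul_sum]
    refine Finset.sum_congr rfl fun t _ => ?_
    ring
  -- for each truncation
  have step : ∀ t, LR (k * k') (a * trunc t k') := by
    intro t
    have e1 : LR (k * k') (k * trunc t k') := (LR.trunc nk' t).mul_left hk nk
    have e2 : LR (k * trunc t k') (a * trunc t k') := h.mul_right (hk'.trunc nk' t) (nk'.trunc t)
    by_cases h0 : k * trunc t k' = 0
    · -- then `a * trunc t k' = 0`
      have : a * trunc t k' = 0 := by
        rcases mul_eq_zero.1 h0 with h1 | h1
        · have : a = 0 := PowerSeries.ext fun n => by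
            rw [hz n (by rw [h1]; simp)]; simp
          rw [this, zero_mul]
        · rw [h1, mul_zero]
      rw [this]; exact LR.zero_right _
    · exact e1.trans e2 (nk.mul nk') (nk.mul (nk'.trunc t)) (na.mul (nk'.trunc t)) h0
  rw [decm i hij, decm j le_rfl, Finset.mul_sum, Finset.mul_sum]
  refine Finset.sum_le_sum fun t _ => ?_
  have := mul_le_mul_of_nonneg_left (step t i j hij) (c0 t)
  nlinarith

end Pool.Agent.Helper54.Arb
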