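import Pool.Agent.Helper54.Arb.Seq

/-!
# The invariants of the two-state calculus for arborescent positive tangles
-/

set_option autoImplicit false

namespace Pool.Agent.Helper54.Arb

open PowerSeries Finset

/-- the invariant of a dual number `f + g ε` -/
structure Inv (f g : ℝ⟦X⟧) : Prop where
  nf : Nn f
  ng : Nn g
  f0 : f ≠ 0
  g0 : g ≠ 0
  fg : LR f g
  gf : LR g (X * f)

theorem X_mul_ne_zero {f : ℝ⟦X⟧} (h : f ≠ 0) : X * f ≠ 0 := mul_ne_zero X_ne_zero h

theorem add_ne_zero_of_Nn {f g : ℝ⟦X⟧} (hf : Nn f) (hg : Nn g) (h : f ≠ 0) : f + g ≠ 0 := by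
  obtain ⟨k, hk⟩ := ne_zero_iff.1 h
  apply ne_zero_iff.2
  refine ⟨k, ?_⟩
  rw [map_add]
  have h1 : 0 < coeff k f := lt_of_le_of_ne (hf k) (Ne.symm hk)
  have h2 := hg k
  exact ne_of_gt (by linarith)

theorem Inv.pf_f {f g : ℝ⟦X⟧} (h : Inv f g) : PF f :=
  PF.of_LR (h.fg.trans h.gf h.nf h.ng (Nn.X.mul h.nf) h.g0)

theorem Inv.pf_g {f g : ℝ⟦X⟧} (h : Inv f g) : PF g :=
  PF.of_LR (h.gf.trans h.fg.shift h.ng (Nn.X.mul h.nf) (Nn.X.mul h.ng) (X_mul_ne_zero h.f0))

/-- horizontal sum -/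
theorem Inv.mul {f g f' g' : ℝ⟦X⟧} (h : Inv f g) (h' : Inv f' g') :
    Inv (f * f') (f * g' + g * f') where
  nf := h.nf.mul h'.nf
  ng := (h.nf.mul h'.ng).add (h.ng.mul h'.nf)
  f0 := mul_ne_zero h.f0 h'.f0
  g0 := add_ne_zero_of_Nn (h.nf.mul h'.ng) (h.ng.mul h'.nf) (mul_ne_zero h.f0 h'.g0)
  fg := (h'.fg.mul_left h.pf_f h.nf).add_right (h.fg.mul_right h'.pf_f h'.nf)
  gf := by
    have e1 := h'.gf.mul_left h.pf_f h.nf
    have e2 := h.gf.mul_right h'.pf_f h'.nf
    rw [show f * (X * f') = X * (f * f') by ring] at e1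
    rw [show X * f * f' = X * (f * f') by ring] at e2
    exact e1.add_left e2

/-- rotation -/
theorem Inv.rot {f g : ℝ⟦X⟧} (h : Inv f g) : Inv g (X * f) where
  nf := h.ng
  ng := Nn.X.mul h.nf
  f0 := h.g0
  g0 := X_mul_ne_zero h.f0
  fg := h.gf
  gf := h.fg.shift

theorem Nn.of_X_mul {f : ℝ⟦X⟧} (h : Nn (PowerSeries.X * f)) : Nn f := fun i => by
  have := h (i + 1)
  rwa [coeff_succ_X_mul] at this

/-- rotation back -/
theorem Inv.unrot {f g : ℝ⟦X⟧} (h : Inv f (X * g)) : Inv g f where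
  nf := h.ng.of_X_mul
  ng := h.nf
  f0 := fun h0 => h.g0 (by rw [h0, mul_zero])
  g0 := h.f0
  fg := h.gf.of_shift
  gf := h.fg

theorem inv_X_iff {f g : ℝ⟦X⟧} : Inv f (X * g) ↔ Inv g f := ⟨Inv.unrot, Inv.rot⟩

/-- the invariant of a tangle `a + b s` with parallel ends -/
structure InvP (a b : ℝ⟦X⟧) : Prop where
  na : Nn a
  inv : Inv b (a + C (1 / 2 : ℝ) * b)

theorem C_half_add (b : ℝ⟦X⟧) : C (1 / 2 : ℝ) * b + C (1 / 2 : ℝ) * b = b := by
  rw [← add_mul, ← map_add]; norm_num

theorem InvP.nb {a b : ℝ⟦X⟧} (h : InvP a b) : Nn b := h.inv.nf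

/-- a single crossing -/
theorem InvP.crossing : InvP 0 1 where
  na := Nn.zero
  inv := by
    have h1 : Nn (0 + C (1 / 2 : ℝ) * 1 : ℝ⟦X⟧) := Nn.zero.add (Nn.one.C_mul (by norm_num))
    refine ⟨Nn.one, h1, one_ne_zero, ?_, ?_, ?_⟩
    · rw [zero_add, mul_one]
      intro h
      have : (C (1 / 2 : ℝ) : ℝ⟦X⟧) = C 0 := by rw [h]; simp
      have := C_injective this
      norm_num at this
    · rw [zero_add]
      exact (LR.refl 1).C_mul_right (by norm_num)
    · rw [zero_add]
      refine LR.C_mul_left ?_ (by norm_num)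
      intro i j hij
      simp only [coeff_one, mul_one, coeff_X]
      split_ifs <;> first | omega | norm_num

/-- crossings in a horizontal row next to an alternating tangle -/
theorem InvP.mul {a b f g : ℝ⟦X⟧} (h : InvP a b) (h' : Inv f g) :
    InvP (b * g + a * f) (b * f) where
  na := (h.nb.mul h'.ng).add (h.na.mul h'.nf)
  inv := by
    have := h.inv.mul h'
    rwa [show b * g + (a + C (1 / 2 : ℝ) * b) * f =
      b * g + a * f + C (1 / 2 : ℝ) * (b * f) by ring] at this

/-- **The braid-like product**: `(a + b s) (a' + b' s)` with `s ^ 2 = s + τ`. -/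
theorem InvP.comp {a b a' b' : ℝ⟦X⟧} (h : InvP a b) (h' : InvP a' b') :
    InvP (a * a' + X * (b * b')) (a * b' + b * a' + b * b') := by
  set r := a + C (1 / 2 : ℝ) * b with hr
  set r' := a' + C (1 / 2 : ℝ) * b' with hr'
  have hi : Inv b r := h.inv
  have hi' : Inv b' r' := h'.inv
  -- the new values
  have eb : a * b' + b * a' + b * b' = b * r' + r * b' := by
    rw [hr, hr']
    have e := C_half_add (b * b')
    linear_combination -e
  have er : a * a' + X * (b * b') + C (1 / 2 : ℝ) * (b * r' + r * b') =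
      r * r' + X * (b * b') + C (1 / 4 : ℝ) * (b * b') := by
    have e4 : (C (1 / 4 : ℝ) : ℝ⟦X⟧) = C (1 / 2 : ℝ) * C (1 / 2 : ℝ) := by
      rw [← map_mul]; norm_num
    rw [hr, hr', e4]
    ring
  have nX : Nn (X * (b * b')) := Nn.X.mul (hi.nf.mul hi'.nf)
  have nb : Nn (b * r' + r * b') := (hi.nf.mul hi'.ng).add (hi.ng.mul hi'.nf)
  have nb0 : b * r' + r * b' ≠ 0 :=
    add_ne_zero_of_Nn (hi.nf.mul hi'.ng) (hi.ng.mul hi'.nf) (mul_ne_zero hi.f0 hi'.g0)
  have na : Nn (a * a' + X * (b * b')) := (h.na.mul h'.na).add nX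
  have nr : Nn (a * a' + X * (b * b') + C (1 / 2 : ℝ) * (b * r' + r * b')) :=
    na.add (nb.C_mul (by norm_num))
  have hbX : LR b (X * r) :=
    hi.fg.trans (hi.pf_g.LR hi.ng) hi.nf hi.ng (Nn.X.mul hi.ng) hi.g0
  have hbX' : LR b' (X * r') :=
    hi'.fg.trans (hi'.pf_g.LR hi'.ng) hi'.nf hi'.ng (Nn.X.mul hi'.ng) hi'.g0
  -- `b'' ◁ X b b'`
  have l1 : LR (b * r' + r * b') (X * (b * b')) := by
    refine LR.add_left ?_ ?_
    · have := hi'.gf.mul_left hi.pf_f hi.nf
      rwa [show b * (X * b') = X * (b * b') by ring] at this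
    · have := hi.gf.mul_right hi'.pf_f hi'.nf
      rwa [show X * b * b' = X * (b * b') by ring] at this
  -- `b'' ◁ a a'`, by Efron's theorem
  have l2 : LR (b * r' + r * b') (a * a') := by
    have nk : Nn (a + b) := h.na.add hi.nf
    have nk' : Nn (a' + b') := h'.na.add hi'.nf
    have kap : ∀ {a b : ℝ⟦X⟧}, InvP a b → PF (a + b) ∧ LR (a + b) a := by
      intro a b h
      have hi := h.inv
      have e : a + b = (a + C (1 / 2 : ℝ) * b) + C (1 / 2 : ℝ) * b := by
        rw [add_assoc, C_half_add]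
      have hbX : LR b (X * (a + C (1 / 2 : ℝ) * b)) :=
        hi.fg.trans (hi.pf_g.LR hi.ng) hi.nf hi.ng (Nn.X.mul hi.ng) hi.g0
      constructor
      · apply PF.of_LR
        rw [e, mul_add, show X * (C (1 / 2 : ℝ) * b) = C (1 / 2 : ℝ) * (X * b) by ring]
        refine LR.add_left (LR.add_right (hi.pf_g.LR hi.ng) ?_) (LR.add_right ?_ ?_)
        · exact hi.gf.C_mul_right (by norm_num)
        · exact hbX.C_mul_left (by norm_num)
        · exact (LR.C_mul_right (hi.pf_f.LR hi.nf) (by norm_num)).C_mul_left (by norm_num)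
      · have hba : LR b a := by
          intro i j hij
          have := hi.fg i j hij
          rw [map_add, map_add, coeff_C_mul, coeff_C_mul] at this
          nlinarith
        exact (LR.refl a).add_left hba
    have hz : ∀ {a b : ℝ⟦X⟧}, Nn a → Nn b → ∀ n, coeff n (a + b) = 0 → coeff n a = 0 := by
      intro a b ha hb n hn
      rw [map_add] at hn
      have := ha n
      have := hb n
      linarith
    have ef := efron (kap h).1 (kap h').1 nk nk' h.na h'.na (kap h).2 (kap h').2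
      (hz h.na hi.nf) (hz h'.na hi'.nf)
    rw [show (a + b) * (a' + b') = (a * b' + b * a' + b * b') + a * a' by ring, eb] at ef
    exact ef.of_add_left
  refine ⟨na, ?_⟩
  rw [eb]
  refine ⟨nb, nr, nb0, ?_, ?_, ?_⟩
  · rw [add_comm]
    exact add_ne_zero_of_Nn (nb.C_mul (by norm_num)) na (by
      intro h0
      rcases mul_eq_zero.1 h0 with h1 | h1
      · have : (C (1 / 2 : ℝ) : ℝ⟦X⟧) = C 0 := by rw [h1]; simp
        have := C_injective this
        norm_num at this
      · exact nb0 h1)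
  · exact (l2.add_right l1).add_right ((LR.refl _).C_mul_right (by norm_num))
  · rw [er, mul_add X (b * r') (r * b')]
    have m1 : LR (r * r') (X * (b * r')) := by
      have := hi.gf.mul_right hi'.pf_g hi'.ng
      rwa [show X * b * r' = X * (b * r') by ring] at this
    have m2 : LR (r * r') (X * (r * b')) := by
      have := hi'.gf.mul_left hi.pf_g hi.ng
      rwa [show r * (X * b') = X * (r * b') by ring] at this
    have m3 : LR (X * (b * b')) (X * (b * r')) := (hi'.fg.mul_left hi.pf_f hi.nf).shift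
    have m4 : LR (X * (b * b')) (X * (r * b')) := (hi.fg.mul_right hi'.pf_f hi'.nf).shift
    have m5 : LR (b * b') (X * (b * r')) := by
      have := hbX'.mul_left hi.pf_f hi.nf
      rwa [show b * (X * r') = X * (b * r') by ring] at this
    have m6 : LR (b * b') (X * (r * b')) := by
      have := hbX.mul_right hi'.pf_f hi'.nf
      rwa [show X * r * b' = X * (r * b') by ring] at this
    exact ((m1.add_right m2).add_left (m3.add_right m4)).add_left
      (LR.C_mul_left (c := (1 / 4 : ℝ)) (m5.add_right m6) (by norm_num))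

/-- log-concavity of the coefficients -/
theorem PF.logConcave {f : ℝ⟦X⟧} (h : PF f) (k : ℕ) :
    coeff k f * coeff (k + 2) f ≤ coeff (k + 1) f ^ 2 := by
  have := h k (k + 1) 1 (by omega)
  rw [sq]
  exact this

end Pool.Agent.Helper54.Arb
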